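import Pool.Agent.K7.H42.SD.OrdAlg

/-!
# Project SD: polynomial time for loops whose states are sublists of a given list
-/

set_option autoImplicit false

namespace Pool.Agent.NPC

variable {α β γ σ : Type} [TEnc α] [TEnc β] [TEnc γ] [TEnc σ]

theorem sz_sublist {l l' : List σ} (h : List.Sublist l l') : sz l ≤ sz l' := by
  induction h with
  | slnil => exact le_rfl
  | @cons l₁ l₂ a _ ih => have := sz_list_cons a l₂; omega
  | @cons_cons l₁ l₂ a _ ih =>
    have := sz_list_cons a l₂
    have := sz_list_cons a l₁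
    omega

omit [TEnc β] [TEnc σ] in
theorem foldl_sub_aux {F : List σ → β → List σ} {m : List σ}
    (h1 : ∀ S b, S.Sublist m → (F S b).Sublist m) : ∀ (l : List β) (s : List σ), s.Sublist m →
    (l.foldl F s).Sublist m := by
  intro l
  induction l with
  | nil => intro s hs; exact hs
  | cons b l ih => intro s hs; exact ih _ (h1 _ _ hs)

omit [TEnc β] [TEnc σ] in
theorem foldr_sub_aux {F : β → List σ → List σ} {m : List σ}
    (h1 : ∀ S b, S.Sublist m → (F b S).Sublist m) : ∀ (l : List β) (s : List σ), s.Sublist m →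
    (l.foldr F s).Sublist m := by
  intro l
  induction l with
  | nil => intro s hs; exact hs
  | cons b l ih => intro s hs; exact h1 _ _ (ih s hs)

omit [TEnc σ] in
theorem iterate_sub_aux {F : List σ → List σ} {m : List σ}
    (h1 : ∀ S, S.Sublist m → (F S).Sublist m) : ∀ (k : ℕ) (s : List σ), s.Sublist m →
    (F^[k] s).Sublist m := by
  intro k
  induction k with
  | zero => intro s hs; exact hs
  | succ k ih => intro s hs; rw [Function.iterate_succ_apply]; exact ih _ (h1 _ hs)

namespace Poly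

/-- a left fold whose states are sublists of `m a` -/
theorem foldlSub {l : α → List β} {s : α → List σ} {F : α → List σ → β → List σ} {m : α → List σ}
    (hm : Poly m) (hl : Poly l) (hs : Poly s) (hF : Poly (fun p : α × List σ × β => F p.1 p.2.1 p.2.2))
    (h0 : ∀ a, (s a).Sublist (m a)) (h1 : ∀ a S b, S.Sublist (m a) → (F a S b).Sublist (m a)) :
    Poly (fun a => (l a).foldl (F a) (s a)) := by
  obtain ⟨q, hq⟩ := hm.sz_le
  exact foldl hl hs hF q fun a k _ =>
    (sz_sublist (foldl_sub_aux (h1 a) _ _ (h0 a))).trans (hq a)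

/-- a right fold whose states are sublists of `m a` -/
theorem foldrSub {l : α → List β} {s : α → List σ} {F : α → β → List σ → List σ} {m : α → List σ}
    (hm : Poly m) (hl : Poly l) (hs : Poly s) (hF : Poly (fun p : α × β × List σ => F p.1 p.2.1 p.2.2))
    (h0 : ∀ a, (s a).Sublist (m a)) (h1 : ∀ a S b, S.Sublist (m a) → (F a b S).Sublist (m a)) :
    Poly (fun a => (l a).foldr (F a) (s a)) := by
  obtain ⟨q, hq⟩ := hm.sz_le
  exact foldr hl hs hF q fun a k _ =>
    (sz_sublist (foldr_sub_aux (h1 a) _ _ (h0 a))).trans (hq a)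

/-- an iteration whose states are sublists of `m a` -/
theorem iterSub {l : α → List β} {s : α → List σ} {F : α → List σ → List σ} {m : α → List σ}
    (hm : Poly m) (hl : Poly l) (hs : Poly s) (hF : Poly (fun p : α × List σ => F p.1 p.2))
    (h0 : ∀ a, (s a).Sublist (m a)) (h1 : ∀ a S, S.Sublist (m a) → (F a S).Sublist (m a)) :
    Poly (fun a => (F a)^[(l a).length] (s a)) := by
  obtain ⟨q, hq⟩ := hm.sz_le
  exact iterLen hl hs hF q fun a k _ =>
    (sz_sublist (iterate_sub_aux (h1 a) _ _ (h0 a))).trans (hq a)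

end Poly

namespace H72SD

open Pool.Agent.K7.H42.SD

theorem poly_adjb : Poly (fun p : List (List ℕ) × ℕ × ℕ => adjb p.1 p.2.1 p.2.2) := by
  unfold adjb
  have hL : Poly (fun p : List (List ℕ) × ℕ × ℕ => p.1) := Poly.fst Poly.id
  have hi : Poly (fun p : List (List ℕ) × ℕ × ℕ => p.2.1) := Poly.fst (Poly.snd Poly.id)
  have hj : Poly (fun p : List (List ℕ) × ℕ × ℕ => p.2.2) := Poly.snd (Poly.snd Poly.id)
  have hn : Poly (fun _ : List (List ℕ) × ℕ × ℕ => ([] : List ℕ)) := Poly.const _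
  exact Poly.and (Poly.and (Poly.decide_lt hi (Poly.length hL)) (Poly.decide_lt hj (Poly.length hL)))
    (Poly.and (Poly.not (Poly.decide_eq hi hj))
      (Poly.or (Poly.decide_mem hj (Poly.getD hL hi hn))
        (Poly.decide_mem hi (Poly.getD hL hj hn))))

/-- composition form -/
theorem poly_adjb' {α : Type} [TEnc α] {L : α → List (List ℕ)} {i j : α → ℕ} (hL : Poly L)
    (hi : Poly i) (hj : Poly j) : Poly (fun a => adjb (L a) (i a) (j a)) :=
  Poly.comp (g := fun p : List (List ℕ) × ℕ × ℕ => adjb p.1 p.2.1 p.2.2)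
    (f := fun a => (L a, i a, j a)) poly_adjb (Poly.pair hL (Poly.pair hi hj))

theorem poly_impb {α : Type} [TEnc α] {L : α → List (List ℕ)} {p q : α → ℕ × ℕ} (hL : Poly L)
    (hp : Poly p) (hq : Poly q) : Poly (fun a => impb (L a) (p a) (q a)) := by
  unfold impb
  exact Poly.and (Poly.and (poly_adjb' hL (Poly.fst hp) (Poly.snd hq))
    (poly_adjb' hL (Poly.snd hp) (Poly.fst hq)))
    (Poly.and (Poly.not (poly_adjb' hL (Poly.fst hp) (Poly.fst hq)))
      (Poly.not (poly_adjb' hL (Poly.snd hp) (Poly.snd hq))))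

theorem poly_pairs {α : Type} [TEnc α] {L : α → List (List ℕ)} (hL : Poly L) :
    Poly (fun a => pairs (L a).length) := by
  unfold pairs
  refine Poly.flatMap (l := fun a => List.range (L a).length)
    (F := fun a i => (List.range (L a).length).map (fun j => (i, j))) (Poly.range_length hL) ?_
  refine Poly.map (l := fun p : α × ℕ => List.range (L p.1).length)
    (F := fun (p : α × ℕ) (j : ℕ) => (p.2, j)) (Poly.range_length (hL.comp (Poly.fst Poly.id))) ?_
  exact Poly.pair (Poly.snd (Poly.fst Poly.id)) (Poly.snd Poly.id)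

theorem poly_rnd : Poly (fun p : List (List ℕ) × List (ℕ × ℕ) => rnd p.1 p.2) := by
  unfold rnd
  refine Poly.filter (l := fun p : List (List ℕ) × List (ℕ × ℕ) => pairs p.1.length)
    (p := fun (p : List (List ℕ) × List (ℕ × ℕ)) (e : ℕ × ℕ) =>
      p.2.any (fun f => decide (f = e) || (impb p.1 f e ||
        (decide (f.1 = e.1) && p.2.any (fun g => decide (g.1 = f.2) && decide (g.2 = e.2))))))
    (poly_pairs (Poly.fst Poly.id)) ?_
  refine Poly.any (l := fun x : (List (List ℕ) × List (ℕ × ℕ)) × (ℕ × ℕ) => x.1.2)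
    (p := fun (x : (List (List ℕ) × List (ℕ × ℕ)) × (ℕ × ℕ)) (f : ℕ × ℕ) =>
      decide (f = x.2) || (impb x.1.1 f x.2 ||
        (decide (f.1 = x.2.1) && x.1.2.any (fun g => decide (g.1 = f.2) && decide (g.2 = x.2.2)))))
    (Poly.snd (Poly.fst Poly.id)) ?_
  have hL : Poly (fun x : ((List (List ℕ) × List (ℕ × ℕ)) × (ℕ × ℕ)) × (ℕ × ℕ) => x.1.1.1) :=
    Poly.fst (Poly.fst (Poly.fst Poly.id))
  have hS : Poly (fun x : ((List (List ℕ) × List (ℕ × ℕ)) × (ℕ × ℕ)) × (ℕ × ℕ) => x.1.1.2) :=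
    Poly.snd (Poly.fst (Poly.fst Poly.id))
  have he : Poly (fun x : ((List (List ℕ) × List (ℕ × ℕ)) × (ℕ × ℕ)) × (ℕ × ℕ) => x.1.2) :=
    Poly.snd (Poly.fst Poly.id)
  have hf : Poly (fun x : ((List (List ℕ) × List (ℕ × ℕ)) × (ℕ × ℕ)) × (ℕ × ℕ) => x.2) :=
    Poly.snd Poly.id
  refine Poly.or (Poly.decide_eq hf he) (Poly.or (poly_impb hL hf he)
    (Poly.and (Poly.decide_eq (Poly.fst hf) (Poly.fst he)) ?_))
  refine Poly.any (l := fun x : ((List (List ℕ) × List (ℕ × ℕ)) × (ℕ × ℕ)) × (ℕ × ℕ) => x.1.1.2)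
    (p := fun (x : ((List (List ℕ) × List (ℕ × ℕ)) × (ℕ × ℕ)) × (ℕ × ℕ)) (g : ℕ × ℕ) =>
      decide (g.1 = x.2.2) && decide (g.2 = x.1.2.2)) hS ?_
  exact Poly.and (Poly.decide_eq (Poly.fst (Poly.snd Poly.id)) (Poly.snd (hf.comp (Poly.fst Poly.id))))
    (Poly.decide_eq (Poly.snd (Poly.snd Poly.id)) (Poly.snd (he.comp (Poly.fst Poly.id))))

theorem rnd_sublist (L : List (List ℕ)) (S : List (ℕ × ℕ)) :
    (rnd L S).Sublist (pairs L.length) := List.filter_sublist

theorem stPClose : StPClose := by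
  unfold StPClose close
  obtain ⟨q, hq⟩ := (poly_pairs (α := List (List ℕ) × List (ℕ × ℕ)) (L := fun p => p.1)
    (Poly.fst Poly.id)).sz_le
  refine Poly.iterLen (l := fun p : List (List ℕ) × List (ℕ × ℕ) => pairs p.1.length)
    (s := fun p : List (List ℕ) × List (ℕ × ℕ) => p.2)
    (F := fun (p : List (List ℕ) × List (ℕ × ℕ)) (S : List (ℕ × ℕ)) => rnd p.1 S)
    (poly_pairs (Poly.fst Poly.id)) (Poly.snd Poly.id) ?_ (q + Polynomial.X) ?_
  · exact Poly.comp (g := fun p : List (List ℕ) × List (ℕ × ℕ) => rnd p.1 p.2)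
      (f := fun x : (List (List ℕ) × List (ℕ × ℕ)) × List (ℕ × ℕ) => (x.1.1, x.2)) poly_rnd
      (Poly.pair (Poly.fst (Poly.fst Poly.id)) (Poly.snd Poly.id))
  · intro p k _
    simp only [Polynomial.eval_add, Polynomial.eval_X]
    cases k with
    | zero =>
      rw [Function.iterate_zero, id]
      have : sz p = sz p.1 + sz p.2 + 1 := sz_pair p.1 p.2
      omega
    | succ k =>
      rw [Function.iterate_succ_apply']
      exact (sz_sublist (rnd_sublist p.1 _)).trans ((hq p).trans (Nat.le_add_right _ _))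

end H72SD

end Pool.Agent.NPC
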